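import Pool.Agent.R246.GF.Stm

/-! GF-DET: first order expansion of the leading minors at an adapted point. -/

namespace Pool.Agent.R724.GF

open Matrix Pool.Agent.R246.GF

section general

variable {R : Type*} [CommRing R] (I : Ideal R)

theorem prod_one_add {ι : Type*} [DecidableEq ι] (s : Finset ι) (x : ι → R)
    (hx : ∀ i ∈ s, x i ∈ I) : ∏ i ∈ s, (1 + x i) - 1 - ∑ i ∈ s, x i ∈ I ^ 2 := by
  induction s using Finset.induction_on with
  | empty => simp
  | insert a s ha ih =>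
    have h1 := ih (fun i hi => hx i (Finset.mem_insert_of_mem hi))
    have hs : ∑ i ∈ s, x i ∈ I := Ideal.sum_mem _ (fun i hi => hx i (Finset.mem_insert_of_mem hi))
    have hle : I ^ 2 ≤ I := Ideal.pow_le_self (by norm_num)
    have h2 : ∏ i ∈ s, (1 + x i) - 1 ∈ I := by
      have := I.add_mem (hle h1) hs
      rwa [sub_add_cancel] at this
    have h3 : x a * (∏ i ∈ s, (1 + x i) - 1) ∈ I ^ 2 := by
      rw [pow_two]
      exact Ideal.mul_mem_mul (hx a (Finset.mem_insert_self _ _)) h2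
    rw [Finset.prod_insert ha, Finset.sum_insert ha]
    have h4 : (1 + x a) * ∏ i ∈ s, (1 + x i) - 1 - (x a + ∑ i ∈ s, x i)
        = (∏ i ∈ s, (1 + x i) - 1 - ∑ i ∈ s, x i) + x a * (∏ i ∈ s, (1 + x i) - 1) := by ring
    rw [h4]
    exact (I ^ 2).add_mem h1 h3

theorem det_one_add {m : ℕ} (N : Matrix (Fin m) (Fin m) R) (hN : ∀ i j, N i j ∈ I) :
    (1 + N).det - 1 - ∑ i, N i i ∈ I ^ 2 := by
  rw [Matrix.det_apply, ← Finset.add_sum_erase _ _ (Finset.mem_univ (1 : Equiv.Perm (Fin m)))]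
  have h1 : (Equiv.Perm.sign (1 : Equiv.Perm (Fin m))) • ∏ i, (1 + N) ((1 : Equiv.Perm (Fin m)) i) i
      = ∏ i, (1 + N i i) := by
    rw [Equiv.Perm.sign_one, one_smul]
    apply Finset.prod_congr rfl
    intro i _
    rw [Equiv.Perm.one_apply, Matrix.add_apply, Matrix.one_apply_eq]
  rw [h1]
  have h2 := prod_one_add I Finset.univ (fun i : Fin m => N i i) (fun i _ => hN i i)
  have h3 : ∑ σ ∈ Finset.univ.erase (1 : Equiv.Perm (Fin m)),
      Equiv.Perm.sign σ • ∏ i, (1 + N) (σ i) i ∈ I ^ 2 := by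
    apply Ideal.sum_mem
    intro σ hσ
    have hne : σ ≠ 1 := Finset.ne_of_mem_erase hσ
    obtain ⟨i, hi⟩ : ∃ i, σ i ≠ i := by
      by_contra hcon
      push Not at hcon
      exact hne (Equiv.ext hcon)
    have hj : σ (σ i) ≠ σ i := fun h => hi (σ.injective h)
    have hoff : ∀ k, σ k ≠ k → (1 + N) (σ k) k ∈ I := by
      intro k hk
      rw [Matrix.add_apply, Matrix.one_apply_ne hk, zero_add]
      exact hN _ _
    have h4 : ∏ k, (1 + N) (σ k) k ∈ I ^ 2 := by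
      rw [← Finset.mul_prod_erase _ _ (Finset.mem_univ i),
        ← Finset.mul_prod_erase _ _ (Finset.mem_erase.mpr ⟨hi, Finset.mem_univ (σ i)⟩), ← mul_assoc]
      apply Ideal.mul_mem_right
      rw [pow_two]
      exact Ideal.mul_mem_mul (hoff i hi) (hoff (σ i) hj)
    rcases Int.units_eq_one_or (Equiv.Perm.sign σ) with h5 | h5
    · rw [h5, one_smul]; exact h4
    · rw [h5, Units.neg_smul, one_smul]
      exact (I ^ 2).neg_mem h4
  have h4 := (I ^ 2).add_mem h2 h3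
  have h5 : ∏ i, (1 + N i i) + ∑ σ ∈ Finset.univ.erase (1 : Equiv.Perm (Fin m)),
      Equiv.Perm.sign σ • ∏ i, (1 + N) (σ i) i - 1 - ∑ i, N i i
      = (∏ i, (1 + N i i) - 1 - ∑ i, N i i) + ∑ σ ∈ Finset.univ.erase (1 : Equiv.Perm (Fin m)),
      Equiv.Perm.sign σ • ∏ i, (1 + N) (σ i) i := by ring
  rw [h5]
  exact h4

theorem form_mem {n : ℕ} (u v : Fin n → R) (W : Matrix (Fin n) (Fin n) R)
    (hW : ∀ r s, W r s ∈ I) : u ⬝ᵥ (W *ᵥ v) ∈ I := by
  unfold dotProduct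
  apply Ideal.sum_mem
  intro r _
  apply Ideal.mul_mem_left
  unfold mulVec dotProduct
  apply Ideal.sum_mem
  intro s _
  exact Ideal.mul_mem_right _ _ (hW r s)

end general

noncomputable section

variable {n : ℕ}

/-- real constants -/
def ph (n : ℕ) : ℝ →+* Pol n := MvPolynomial.C.comp Complex.ofRealHom

theorem ph_apply (x : ℝ) : ph n x = MvPolynomial.C ((x : ℝ) : ℂ) := rfl

/-- the generic matrix -/
def XX (n : ℕ) : Matrix (Fin n) (Fin n) (Pol n) := Matrix.of fun r s => MvPolynomial.X (r, s)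

/-- constants -/
def PP (P : Pt n) : Matrix (Fin n) (Fin n) (Pol n) := (M P).map (ph n)

def DD (P : Pt n) : Matrix (Fin n) (Fin n) (Pol n) := XX n - PP P

theorem DD_mem (P : Pt n) (r s : Fin n) : DD P r s ∈ mm P :=
  Ideal.subset_span ⟨(r, s), rfl⟩

theorem PP_mul (P : Pt n) (hP : M P * M P = M P) : PP P * PP P = PP P := by
  unfold PP
  rw [← Matrix.map_mul, hP]

theorem PP_tr (P : Pt n) (hP : (M P)ᵀ = M P) : (PP P)ᵀ = PP P := by
  unfold PP
  rw [← Matrix.transpose_map, hP]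

theorem PP_vec (P : Pt n) (v : Fin n → ℝ) :
    PP P *ᵥ (fun r => ph n (v r)) = fun r => ph n ((M P *ᵥ v) r) := by
  funext r
  unfold PP
  exact (RingHom.map_mulVec (ph n) (M P) v r).symm

theorem dot_vec (u v : Fin n → ℝ) :
    (fun r => ph n (u r)) ⬝ᵥ (fun r => ph n (v r)) = ph n (u ⬝ᵥ v) :=
  (RingHom.map_dotProduct (ph n) u v).symm

/-- the idempotent relation -/
theorem GG_mem (k : ℕ) (r s : Fin n) : (XX n * XX n - XX n) r s ∈ IG n k := by
  intro Q hQ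
  have h1 := congrFun (congrFun hQ.2.1 r) s
  rw [Matrix.sub_apply, Matrix.mul_apply, map_sub, map_sum]
  have h2 : ∀ t, ev Q (XX n r t * XX n t s) = ((Q (r, t) : ℝ) : ℂ) * ((Q (t, s) : ℝ) : ℂ) := by
    intro t
    rw [map_mul]
    unfold XX ev
    rw [Matrix.of_apply, Matrix.of_apply, MvPolynomial.aeval_X, MvPolynomial.aeval_X]
  have h3 : ev Q (XX n r s) = ((Q (r, s) : ℝ) : ℂ) := by
    unfold XX ev
    rw [Matrix.of_apply, MvPolynomial.aeval_X]
  rw [Finset.sum_congr rfl (fun t _ => h2 t), h3]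
  rw [Matrix.mul_apply] at h1
  have h4 : ∑ t, Q (r, t) * Q (t, s) = Q (r, s) := h1
  rw [← h4]
  push_cast
  ring

theorem sym_mem (k : ℕ) (P : Pt n) (hP : P ∈ Gr n k) (r s : Fin n) :
    (DD P - (DD P)ᵀ) r s ∈ IG n k := by
  intro Q hQ
  have h1 : Q (s, r) = Q (r, s) := congrFun (congrFun hQ.1 r) s
  have h2 : P (s, r) = P (r, s) := congrFun (congrFun hP.1 r) s
  have h3 : (DD P - (DD P)ᵀ) r s = (MvPolynomial.X (r, s) - MvPolynomial.C ((P (r, s) : ℝ) : ℂ))
      - (MvPolynomial.X (s, r) - MvPolynomial.C ((P (s, r) : ℝ) : ℂ)) := rfl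
  rw [h3]
  unfold ev
  simp only [map_sub, MvPolynomial.aeval_X, MvPolynomial.aeval_C, h1, h2]
  simp

theorem GG_eq (P : Pt n) (hP : M P * M P = M P) :
    XX n * XX n - XX n = PP P * DD P + DD P * PP P + DD P * DD P - DD P := by
  have h1 : XX n = PP P + DD P := by unfold DD; abel
  have h2 := PP_mul P hP
  have h3 : (PP P + DD P) * (PP P + DD P)
      = PP P * PP P + PP P * DD P + (DD P * PP P + DD P * DD P) := by
    rw [Matrix.add_mul, Matrix.mul_add, Matrix.mul_add]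
  rw [h1, h3, h2]
  abel

theorem DDD_mem (P : Pt n) (r s : Fin n) : (DD P * DD P) r s ∈ mm P ^ 2 := by
  rw [Matrix.mul_apply]
  apply Ideal.sum_mem
  intro t _
  rw [pow_two]
  exact Ideal.mul_mem_mul (DD_mem P r t) (DD_mem P t s)

/-- moving the projection to the left vector -/
theorem left_PP (P : Pt n) (hP : (M P)ᵀ = M P) (u w : Fin n → Pol n) :
    u ⬝ᵥ (PP P *ᵥ w) = (PP P *ᵥ u) ⬝ᵥ w := by
  rw [dotProduct_mulVec]
  congr 1
  conv_lhs => rw [← PP_tr P hP]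
  exact vecMul_transpose _ _

theorem one_side (k : ℕ) (P : Pt n) (hP : P ∈ Gr n k) (u : Fin n → Pol n)
    (hu : PP P *ᵥ u = u ∨ PP P *ᵥ u = 0) : u ⬝ᵥ (DD P *ᵥ u) ∈ mm P ^ 2 ⊔ IG n k := by
  have h1 : u ⬝ᵥ ((XX n * XX n - XX n) *ᵥ u) ∈ IG n k := form_mem _ _ _ _ (GG_mem k)
  have h2 : u ⬝ᵥ ((DD P * DD P) *ᵥ u) ∈ mm P ^ 2 := form_mem _ _ _ _ (DDD_mem P)
  have h3 : u ⬝ᵥ ((XX n * XX n - XX n) *ᵥ u) = (PP P *ᵥ u) ⬝ᵥ (DD P *ᵥ u)
      + u ⬝ᵥ (DD P *ᵥ (PP P *ᵥ u)) + u ⬝ᵥ ((DD P * DD P) *ᵥ u) - u ⬝ᵥ (DD P *ᵥ u) := by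
    rw [GG_eq P hP.2.1, sub_mulVec, add_mulVec, add_mulVec, dotProduct_sub, dotProduct_add,
      dotProduct_add, ← mulVec_mulVec, ← mulVec_mulVec, left_PP P hP.1]
  have h1' := (le_sup_right : IG n k ≤ mm P ^ 2 ⊔ IG n k) h1
  have h2' := (le_sup_left : mm P ^ 2 ≤ mm P ^ 2 ⊔ IG n k) h2
  rw [h3] at h1'
  rcases hu with hu | hu
  · rw [hu] at h1'
    have h4 := Ideal.sub_mem _ h1' h2'
    have h5 : u ⬝ᵥ (DD P *ᵥ u) + u ⬝ᵥ (DD P *ᵥ u) + u ⬝ᵥ ((DD P * DD P) *ᵥ u) - u ⬝ᵥ (DD P *ᵥ u)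
        - u ⬝ᵥ ((DD P * DD P) *ᵥ u) = u ⬝ᵥ (DD P *ᵥ u) := by ring
    rwa [h5] at h4
  · rw [hu] at h1'
    have h4 := Ideal.sub_mem _ h2' h1'
    rw [zero_dotProduct, mulVec_zero, dotProduct_zero] at h4
    have h5 : u ⬝ᵥ ((DD P * DD P) *ᵥ u) - (0 + 0 + u ⬝ᵥ ((DD P * DD P) *ᵥ u) - u ⬝ᵥ (DD P *ᵥ u))
        = u ⬝ᵥ (DD P *ᵥ u) := by ring
    rwa [h5] at h4

theorem cross (k : ℕ) (P : Pt n) (hP : P ∈ Gr n k) (u v : Fin n → Pol n) :
    u ⬝ᵥ (DD P *ᵥ v) - v ⬝ᵥ (DD P *ᵥ u) ∈ IG n k := by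
  have h1 : u ⬝ᵥ ((DD P - (DD P)ᵀ) *ᵥ v) ∈ IG n k := form_mem _ _ _ _ (sym_mem k P hP)
  have h2 : u ⬝ᵥ ((DD P)ᵀ *ᵥ v) = v ⬝ᵥ (DD P *ᵥ u) := by
    rw [mulVec_transpose, dotProduct_comm, ← dotProduct_mulVec]
  rw [sub_mulVec, dotProduct_sub, h2] at h1
  exact h1

/-- `z_a` as constants -/
def zh {κ : ℕ} (e f : Fin κ → Fin n → ℝ) (a : Fin κ) : Fin n → Pol n :=
  (fun r => ph n (e a r)) + (MvPolynomial.C Complex.I : Pol n) • (fun r => ph n (f a r))

theorem zh_apply {κ : ℕ} (e f : Fin κ → Fin n → ℝ) (a : Fin κ) (r : Fin n) :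
    zh e f a r = MvPolynomial.C (zz e f a r) := by
  unfold zh zz
  rw [Pi.add_apply, Pi.smul_apply, smul_eq_mul, ph_apply, ph_apply, map_add, map_mul]

theorem BP_eq {κ : ℕ} (e f : Fin κ → Fin n → ℝ) (a b : Fin κ) :
    BP e f a b = zh e f a ⬝ᵥ (XX n *ᵥ zh e f b) := by
  unfold BP
  rw [Matrix.of_apply]
  unfold dotProduct mulVec dotProduct
  apply Finset.sum_congr rfl
  intro r _
  rw [Finset.mul_sum]
  apply Finset.sum_congr rfl
  intro s _
  rw [zh_apply, zh_apply, map_mul]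
  change _ = MvPolynomial.C (zz e f a r) * (MvPolynomial.X (r, s) * MvPolynomial.C (zz e f b s))
  ring

theorem L_eq (u v : Fin n → ℝ) :
    L (vecMulVec u v) = (fun r => ph n (u r)) ⬝ᵥ (XX n *ᵥ (fun r => ph n (v r))) := by
  unfold L dotProduct mulVec dotProduct
  apply Finset.sum_congr rfl
  intro r _
  rw [Finset.mul_sum]
  apply Finset.sum_congr rfl
  intro s _
  rw [vecMulVec_apply]
  change _ = MvPolynomial.C ((u r : ℝ) : ℂ) * (MvPolynomial.X (r, s) * MvPolynomial.C ((v s : ℝ) : ℂ))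
  rw [Complex.ofReal_mul, map_mul]
  ring

end

theorem det : SDET := by
  intro n k κ P e f hP hF he hf j
  have hXX : XX n = PP P + DD P := by unfold DD; abel
  -- constants
  have hPe : ∀ b, PP P *ᵥ (fun r => ph n (e b r)) = fun r => ph n (e b r) := by
    intro b; rw [PP_vec, he b]
  have hPf : ∀ b, PP P *ᵥ (fun r => ph n (f b r)) = 0 := by
    intro b; rw [PP_vec, hf b]; funext r; simp
  have hfe : ∀ a b, f a ⬝ᵥ e b = 0 := by
    intro a b; rw [dotProduct_comm]; exact hF.2.2 b a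
  have hPz : ∀ b, PP P *ᵥ zh e f b = fun r => ph n (e b r) := by
    intro b
    unfold zh
    rw [mulVec_add, mulVec_smul, hPe, hPf, smul_zero, add_zero]
  set N : Matrix (Fin κ) (Fin κ) (Pol n) := Matrix.of fun a b => zh e f a ⬝ᵥ (DD P *ᵥ zh e f b)
    with hN
  have hNm : ∀ a b, N a b ∈ mm P := fun a b => form_mem _ _ _ _ (DD_mem P)
  have hBP : BP e f = 1 + N := by
    ext1 a b
    rw [BP_eq, hXX, add_mulVec, dotProduct_add, hPz, Matrix.add_apply]
    congr 1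
    unfold zh
    rw [add_dotProduct, smul_dotProduct, dot_vec, dot_vec, hfe, map_zero, smul_zero, add_zero,
      hF.1 a b, Matrix.one_apply]
    by_cases hab : a = b
    · rw [if_pos hab, if_pos hab, map_one]
    · rw [if_neg hab, if_neg hab, map_zero]
  set c : Fin ((j : ℕ) + 1) → Fin κ := Fin.castLE (Nat.succ_le_of_lt j.2) with hc
  have hcinj : Function.Injective c := Fin.castLE_injective _
  have hdet := det_one_add (mm P) (N.submatrix c c) (fun i l => hNm _ _)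
  have hlead : uP e f j = (1 + N.submatrix c c).det := by
    unfold uP lead
    rw [hBP, ← hc]
    congr 1
    have : (1 + N).submatrix c c = (1 : Matrix (Fin κ) (Fin κ) (Pol n)).submatrix c c
        + N.submatrix c c := rfl
    rw [this, Matrix.submatrix_one c hcinj]
  have htr : ∑ i, (N.submatrix c c) i i
      = ∑ a ∈ Finset.univ.filter (fun a : Fin κ => a ≤ j), N a a := by
    apply Finset.sum_bij (fun i _ => c i)
    · intro i _
      rw [Finset.mem_filter]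
      refine ⟨Finset.mem_univ _, ?_⟩
      rw [Fin.le_def]
      have h1 : ((c i : Fin κ) : ℕ) = (i : ℕ) := rfl
      rw [h1]
      have := i.2
      omega
    · intro i _ l _ hil
      exact hcinj hil
    · intro a ha
      rw [Finset.mem_filter, Fin.le_def] at ha
      exact ⟨⟨a, by omega⟩, Finset.mem_univ _, rfl⟩
    · intro i _
      rfl
  rw [htr, ← hlead] at hdet
  have hdiag : ∀ a, N a a - MvPolynomial.C (2 * Complex.I) * L (vecMulVec (f a) (e a))
      ∈ mm P ^ 2 ⊔ IG n k := by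
    intro a
    have hL : L (vecMulVec (f a) (e a))
        = (fun r => ph n (f a r)) ⬝ᵥ (DD P *ᵥ (fun r => ph n (e a r))) := by
      rw [L_eq, hXX, add_mulVec, dotProduct_add, hPe, dot_vec, hfe, map_zero, zero_add]
    have h1 := one_side k P hP _ (Or.inl (hPe a))
    have h2 := one_side k P hP _ (Or.inr (hPf a))
    have h3 := (le_sup_right : IG n k ≤ mm P ^ 2 ⊔ IG n k)
      (cross k P hP (fun r => ph n (e a r)) (fun r => ph n (f a r)))
    have hII : (MvPolynomial.C Complex.I : Pol n) * MvPolynomial.C Complex.I = -1 := by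
      rw [← map_mul, Complex.I_mul_I, map_neg, map_one]
    have h2I : (MvPolynomial.C (2 * Complex.I) : Pol n)
        = 2 * MvPolynomial.C Complex.I := by
      rw [map_mul]; rfl
    have h4 : N a a = (fun r => ph n (e a r)) ⬝ᵥ (DD P *ᵥ (fun r => ph n (e a r)))
        + MvPolynomial.C Complex.I * ((fun r => ph n (e a r)) ⬝ᵥ (DD P *ᵥ (fun r => ph n (f a r)))
          + (fun r => ph n (f a r)) ⬝ᵥ (DD P *ᵥ (fun r => ph n (e a r))))
        - (fun r => ph n (f a r)) ⬝ᵥ (DD P *ᵥ (fun r => ph n (f a r))) := by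
      rw [hN, Matrix.of_apply]
      unfold zh
      rw [mulVec_add, mulVec_smul, add_dotProduct, dotProduct_add, dotProduct_add,
        smul_dotProduct, smul_dotProduct, dotProduct_smul, dotProduct_smul]
      simp only [smul_eq_mul]
      linear_combination ((fun r => ph n (f a r)) ⬝ᵥ (DD P *ᵥ (fun r => ph n (f a r)))) * hII
    have h5 : N a a - MvPolynomial.C (2 * Complex.I) * L (vecMulVec (f a) (e a))
        = (fun r => ph n (e a r)) ⬝ᵥ (DD P *ᵥ (fun r => ph n (e a r)))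
          - (fun r => ph n (f a r)) ⬝ᵥ (DD P *ᵥ (fun r => ph n (f a r)))
          + MvPolynomial.C Complex.I *
            ((fun r => ph n (e a r)) ⬝ᵥ (DD P *ᵥ (fun r => ph n (f a r)))
            - (fun r => ph n (f a r)) ⬝ᵥ (DD P *ᵥ (fun r => ph n (e a r)))) := by
      rw [h4, hL, h2I]; ring
    rw [h5]
    exact Ideal.add_mem _ (Ideal.sub_mem _ h1 h2) (Ideal.mul_mem_left _ _ h3)
  have hsum : ∑ a ∈ Finset.univ.filter (fun a : Fin κ => a ≤ j),
      (N a a - MvPolynomial.C (2 * Complex.I) * L (vecMulVec (f a) (e a)))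
      ∈ mm P ^ 2 ⊔ IG n k := Ideal.sum_mem _ (fun a _ => hdiag a)
  rw [Finset.sum_sub_distrib, ← Finset.mul_sum] at hsum
  have h6 := Ideal.add_mem _ ((le_sup_left : mm P ^ 2 ≤ mm P ^ 2 ⊔ IG n k) hdet) hsum
  have h7 : uP e f j - 1 - ∑ a ∈ Finset.univ.filter (fun a : Fin κ => a ≤ j), N a a
      + (∑ a ∈ Finset.univ.filter (fun a : Fin κ => a ≤ j), N a a
        - MvPolynomial.C (2 * Complex.I) *
          ∑ a ∈ Finset.univ.filter (fun a : Fin κ => a ≤ j), L (vecMulVec (f a) (e a)))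
      = uP e f j - 1 - MvPolynomial.C (2 * Complex.I) *
          ∑ a ∈ Finset.univ.filter (fun a : Fin κ => a ≤ j), L (vecMulVec (f a) (e a)) := by ring
  rw [h7] at h6
  exact h6

end Pool.Agent.R724.GF
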